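import Pool.Agent.Q137.UO.Codim

/-!
# The Abel–Jacobi map over number fields in one codimension, and cubic hypersurfaces

Let `k ⊂ ℂ` be a number field. For a smooth projective scheme `Y` over `ℚ` let `A^m(Y) = CH^m(Y_k)_ℚ`, and
let `B^m(Y)` be the image of `A^m(Y)` in the Deligne cohomology `H^{2m}_D(Y_ℂ, ℚ(m))`. Both are additive
functors of the Chow motive of `Y`, and the kernel of the surjection `A^m(Y) → B^m(Y)` is the kernel of
`AJ^m : CH^m_hom(Y_k)_ℚ → J^{2m-1}(Y_k)_ℚ`.

For a separated scheme `X` of finite type over `ℚ` let `W(X)` be the weight complex (Gillet, Soulé; a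
complex of Chow motives over `ℚ` with rational coefficients, for the cohomology with compact supports;
`W(X) = h(X)` for smooth projective `X`), and put `A^{m,i}(X) = H^i(A^m(W(X)))` and
`B^{m,i}(X) = H^i(B^m(W(X)))`. `BijAt (C k) Prod.fst m X` says that the maps `A^{m,i}(X) → B^{m,i}(X)` are
isomorphisms for this `m` and all `i`. For smooth projective `Y` the groups for `i ≠ 0` are zero, and
`BijAt (C k) Prod.fst m Y` says that `AJ^m` is injective for `Y_k`.

Every smooth projective scheme `Y` over `k` is an open and closed subscheme of `Z_k`, where `Z` is the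
scheme `Y` regarded as a smooth projective scheme over `ℚ`.

**Theorem.** (1) For every number field `k ⊂ ℂ` and every `m`, the map `AJ^m` is injective for all smooth
projective schemes over `k` if and only if the maps `A^{m+a-1,i}(X_H) → B^{m+a-1,i}(X_H)` are isomorphisms
for all `a`, all finite sets `H` of triples `(i, j, l)` with `1 ≤ i ≤ a` and all `i`, where `X_H` is the
affine cubic hypersurface `∑_{(i, j, l) ∈ H} x_i y_j z_l = 1` over `ℚ`. The first open case is `m = 2`,
which is about the index `a + 1`.

(2) The maps `A^{n,i} → B^{n,i}` are isomorphisms for `n ≤ a` and the hypersurfaces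
`T(x, y, z) = 1` of all rational trilinear forms `T` in `a` variables `x` (any of the three blocks), with
any numbers of variables `y` and `z`.
-/

set_option autoImplicit false

open CategoryTheory CategoryTheory.Limits AlgebraicGeometry Pool.Agent.Y116.UV Pool.Agent.Z125.UN
  Pool.Agent.Q193.LT Pool.Agent.Q49.WU Pool.Agent.Q137.UO

universe w w'

namespace Pool.Agent.Results.MP_a1cc03_ag.CodimensionByCodimension

/-- The scheme `Y_k`. -/
noncomputable def bc (k : Subfield ℂ) (Y : Sch ℚ) : Sch k :=
  (Over.pullback (Spec.map (CommRingCat.ofHom (algebraMap ℚ k)))).obj Y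

/-- The groups `CH^m_hom(Y)_ℚ` and `J^{2m-1}(Y)_ℚ` and the Abel–Jacobi maps of the problem, for schemes
`Y` over subfields `k` of `ℂ`. -/
structure AbelJacobi where
  /-- the cycles homologous to zero, with rational coefficients -/
  CHhom : ∀ k : Subfield ℂ, ℕ → Sch k → ModuleCat.{w'} ℚ
  /-- the intermediate Jacobians, with rational coefficients -/
  J : ∀ k : Subfield ℂ, ℕ → Sch k → ModuleCat.{w'} ℚ
  /-- the Abel–Jacobi maps -/
  AJ : ∀ (k : Subfield ℂ) (m : ℕ) (Y : Sch k), CHhom k m Y ⟶ J k m Y

/-- `AJ^m` is injective for `Y`. -/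
def InjectiveFor (D : AbelJacobi.{w'}) (k : Subfield ℂ) (m : ℕ) (Y : Sch k) : Prop :=
  Function.Injective (D.AJ k m Y).hom

/-- What is used about the Abel–Jacobi maps over `k`: the description of the kernel by the maps from
cycles to Deligne cohomology, and the descent from `k` to `ℚ`. -/
structure Describes (D : AbelJacobi.{w'}) (k : Subfield ℂ) (C : PairData.{w} ℚ (ℤ × ℤ) ℚ) :
    Prop where
  kernel : ∀ (m : ℕ) (Y : Sch ℚ), SmoothProj Y →
    (InjectiveFor D k m (bc k Y) ↔ BijAt C Prod.fst m Y)
  descent : ∀ m : ℕ, (∀ Y : Sch k, SmoothProj Y → InjectiveFor D k m Y) ↔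
    ∀ Y : Sch ℚ, SmoothProj Y → InjectiveFor D k m (bc k Y)

/-- **The Abel–Jacobi map over number fields, one codimension at a time.** See the explanations above.
Known cases that are used: the point, and the indices `N ≤ 1` (divisors). -/
theorem result {D : AbelJacobi.{w'}} {C : Subfield ℂ → PairData.{w} ℚ (ℤ × ℤ) ℚ}
    (h : ∀ k : Subfield ℂ, NumberField k → Describes D k (C k)) (weight : ∀ k : Subfield ℂ, NumberField k → IsWeightPair (C k))
    (generated : ∀ k : Subfield ℂ, NumberField k → GenAt (C k) Prod.fst)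
    (point : ∀ k : Subfield ℂ, NumberField k → BijAll (C k) (aff ℚ ℚ))
    (divisors : ∀ k : Subfield ℂ, NumberField k → ∀ N : ℤ, N ≤ 1 → ∀ Y : Sch ℚ, SmoothProj Y →
      BijAt (C k) Prod.fst N Y) (k : Subfield ℂ) (hk : NumberField k) :
    (∀ m : ℕ, (∀ Y : Sch k, SmoothProj Y → InjectiveFor D k m Y) ↔
      ∀ (a b c : ℕ) (H : Finset (Fin a × Fin b × Fin c)),
        BijAt (C k) Prod.fst (m + (a - 1)) (tripS ℚ H)) ∧
    ∀ (a b c : ℕ) (T : Fin a → Fin b → Fin c → ℚ) (n : ℤ), n ≤ a →
      BijAt (C k) Prod.fst n (hypS T) := by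
  refine ⟨fun m => ((h k hk).descent m).trans (Iff.trans ?_
      (codim_graphs (generated k hk) (weight k hk) (point k hk) frac_rat m)),
    fun a b c T n hn => low_forms (generated k hk) (weight k hk) (point k hk) (divisors k hk) T
      (by linarith)⟩
  exact ⟨fun g Y hY => ((h k hk).kernel m Y hY).mp (g Y hY),
    fun g Y hY => ((h k hk).kernel m Y hY).mpr (g Y hY)⟩

end Pool.Agent.Results.MP_a1cc03_ag.CodimensionByCodimension
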