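import Pool.Agent.Q72.DP.DimAJ

/-!
# Injectivity of the Abel-Jacobi maps on cycles of a given dimension

`𝒱` is the class of smooth projective varieties over a number field `k` (or any class of smooth proper
varieties over a field `k` closed under products), `C` the Chow groups with rational coefficients (in
the form of their formal properties, `IsChowProj`), `H` a Weil cohomology theory (`IsWeilProj`),
`N X j ⊆ CH^j(X)` the kernel of the Abel-Jacobi map (`IsAJKernel`: homologically trivial classes,
stable under correspondences), `B` the Grothendieck rings of vector bundles (`IsKTheory`) and `Rat`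
the class of rational varieties (`IsRationalClass`).

Theorem. (a) For every `i ≥ 0`: the Abel-Jacobi maps of all varieties are injective on cycles of
dimension `i` if and only if, for all varieties `V` and all divisors `G` on `V`: if the class
`G^(dim V - i)` of cycles of dimension `i` is in the kernel of the Abel-Jacobi map, then it is zero.
(For `i = 0` this is the case of the Albanese maps and the zero-cycles `G^(dim V)`.)
(b) For every `i ≥ 0`: if the classes `G^(dim V - i - 1)` on rational varieties `V` have this property,
then the Abel-Jacobi maps of all varieties are injective on cycles of dimension `i`.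
(c) The Abel-Jacobi maps of all varieties are injective in all codimensions if and only if, for
infinitely many `i`, the classes `G^(dim V - i)` on rational varieties `V` have this property.
-/

open CategoryTheory AlgebraicGeometry

set_option autoImplicit false

universe u v w

namespace Pool.Agent.Results.MP_a1cc03_ag.DimensionByDimension

open Pool.Agent.H914 Pool.Agent.W492.BB Pool.Agent.TH133 Pool.Agent.Q72.DP

/-- The injectivity of the Abel-Jacobi maps on the cycles of dimension `i` is tested on the powers
`G^(dim V - i)` of divisors. -/
theorem result {k : Type u} [Field k] {𝒱 : VarClass k} (C : TheoryData.{u, v, 0} 𝒱 ℚ)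
    [IsChowProj C] {K : Type w} [Field K] (H : WeilTheoryData.{u, v, w} C K) [IsWeilProj H]
    (B : BundleData C) (hB : B.IsKTheory) (Rat : 𝒱.Obj → Prop) (hRat : IsRationalClass B Rat)
    (N : ∀ X : 𝒱.Obj, ℕ → Submodule ℚ (C.A X)) (hN : IsAJKernel H N) :
    (∀ i : ℕ, [∀ X : 𝒱.Obj, InjectiveDim N X i, ∀ V : 𝒱.Obj, TopPowersInjective N V i].TFAE) ∧
      (∀ i : ℕ, (∀ V : 𝒱.Obj, Rat V → TopPowersInjective N V (i + 1)) →
        ∀ X : 𝒱.Obj, InjectiveDim N X i) ∧
      [∀ X : 𝒱.Obj, AJInjective N X,
        ∀ n : ℕ, ∃ i : ℕ, n ≤ i ∧ ∀ V : 𝒱.Obj, Rat V → TopPowersInjective N V i].TFAE :=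
  dim_tfae hB hRat (IsAJKernel.adequate hN) (one_notMem_aj hN)

end Pool.Agent.Results.MP_a1cc03_ag.DimensionByDimension
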