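import Pool.Agent.Q193.LT.Cyc

/-!
# The Abel–Jacobi map over number fields and cubic hypersurfaces

Let `k ⊂ ℂ` be a number field. For a smooth projective scheme `Y` over `k` let `A^m(Y) = CH^m(Y)_ℚ`, and let
`B^m(Y)` be the image of `A^m(Y)` in the Deligne cohomology `H^{2m}_D(Y_ℂ, ℚ(m))`, an extension of the
group of the rational Hodge classes of codimension `m` by `J^{2m-1}(Y)_ℚ`. Both are additive functors of
the Chow motive of `Y`, and the kernel of the surjection `A^m(Y) → B^m(Y)` is the kernel of
`AJ^m : CH^m_hom(Y)_ℚ → J^{2m-1}(Y)_ℚ`.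

For a separated scheme `X` of finite type over `k` let `W(X)` be the weight complex (Gillet, Soulé; a
complex of Chow motives over `k` with rational coefficients, for the cohomology with compact supports;
`W(X) = h(X)` for smooth projective `X`), and put `A^{m,i}(X) = H^i(A^m(W(X)))` and
`B^{m,i}(X) = H^i(B^m(W(X)))`. `BijAll (C k) X` says that the maps `A^{m,i}(X) → B^{m,i}(X)` are
isomorphisms for all `m` and `i`. For smooth projective `Y` the groups for `i ≠ 0` are zero, and
`BijAll (C k) Y` says that `AJ^m` is injective for `Y` and all `m`.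

For a scheme `X` over `ℚ` the same groups of the scheme `X_k` are denoted by `C₀ k`. Every smooth projective
scheme `Y` over `k` is an open and closed subscheme of `Z_k`, where `Z` is the scheme `Y` regarded as a
smooth projective scheme over `ℚ`.

For a finite set `H` of triples `(i, j, l)` (a tripartite hypergraph) let `X_H` be the smooth affine cubic
hypersurface `∑_{(i, j, l) ∈ H} x_i y_j z_l = 1` over `ℚ`.

**Theorem.** (1) The maps `AJ^m` are injective for all number fields `k ⊂ ℂ`, all smooth projective schemes
over `k` and all `m` if and only if for all number fields `k` and all finite sets `H` of triples the maps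
`A^{m,i}((X_H)_k) → B^{m,i}((X_H)_k)` are isomorphisms.

(2) For every number field `k ⊂ ℂ` and all `n`, the maps `AJ^m` are injective for all smooth projective
schemes of dimension at most `n` over `k` and all `m` if and only if the maps
`A^{m,i}(Z) → B^{m,i}(Z)` are isomorphisms for the hypersurfaces `Z : T(x, y, z) = 1` of all trilinear
forms `T` over `k` such that one of the three blocks of variables has at most `n + 2` variables (the
other two blocks are arbitrary).

(3) Unconditionally, the maps are isomorphisms if one of the blocks has at most three variables.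
-/

set_option autoImplicit false

open CategoryTheory CategoryTheory.Limits AlgebraicGeometry Pool.Agent.Y116.UV Pool.Agent.Z125.UN
  Pool.Agent.Q193.LT

universe w w'

namespace Pool.Agent.Results.MP_a1cc03_ag.EveryNumberField

/-- The groups `CH^m_hom(Y)_ℚ` and `J^{2m-1}(Y)_ℚ` and the maps `AJ^m` between them, for subfields `k` of
`ℂ` and schemes `Y` over `k`. -/
structure AbelJacobi where
  /-- the cycles homologous to zero, with rational coefficients -/
  CHhom : ∀ k : Subfield ℂ, ℕ → Sch k → ModuleCat.{w'} ℚ
  /-- the intermediate Jacobians, with rational coefficients -/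
  J : ∀ k : Subfield ℂ, ℕ → Sch k → ModuleCat.{w'} ℚ
  /-- the Abel–Jacobi maps -/
  AJ : ∀ (k : Subfield ℂ) (m : ℕ) (Y : Sch k), CHhom k m Y ⟶ J k m Y

/-- The maps `AJ^m` are injective for `Y` and all `m`. -/
def InjectiveFor (D : AbelJacobi.{w'}) (k : Subfield ℂ) (Y : Sch k) : Prop :=
  ∀ m : ℕ, Function.Injective (D.AJ k m Y).hom

/-- Question Q1: all number fields and all smooth projective schemes. -/
def AllFields (D : AbelJacobi.{w'}) : Prop :=
  ∀ k : Subfield ℂ, NumberField k → ∀ Y : Sch k, SmoothProj Y → InjectiveFor D k Y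

/-- The base change `Y_k` of a scheme over `ℚ`. -/
noncomputable def bc (k : Subfield ℂ) (Y : Sch ℚ) : Sch k :=
  (Over.pullback (Spec.map (CommRingCat.ofHom (algebraMap ℚ k)))).obj Y

/-- What is used about the Abel–Jacobi maps: the description of the kernel for smooth projective schemes
by the maps from cycles to Deligne cohomology, for schemes over `k` and for the base changes of schemes
over `ℚ`, and the reduction to base changes explained above. -/
structure Describes (D : AbelJacobi.{w'}) (C : ∀ k : Subfield ℂ, PairData.{w} k (ℤ × ℤ) ℚ)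
    (C₀ : Subfield ℂ → PairData.{w} ℚ (ℤ × ℤ) ℚ) : Prop where
  kernel : ∀ k : Subfield ℂ, NumberField k → ∀ Y : Sch k, SmoothProj Y →
    (InjectiveFor D k Y ↔ BijAll (C k) Y)
  kernelBase : ∀ k : Subfield ℂ, NumberField k → ∀ Y : Sch ℚ, SmoothProj Y →
    (InjectiveFor D k (bc k Y) ↔ BijAll (C₀ k) Y)
  descent : ∀ k : Subfield ℂ, NumberField k →
    ((∀ Y : Sch k, SmoothProj Y → InjectiveFor D k Y) ↔
      ∀ Y : Sch ℚ, SmoothProj Y → InjectiveFor D k (bc k Y))

/-- The known standard properties of the groups and maps, for the weight complexes over `k` and for the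
base changes to `k` of the weight complexes over `ℚ`. -/
structure Standard (C : ∀ k : Subfield ℂ, PairData.{w} k (ℤ × ℤ) ℚ)
    (C₀ : Subfield ℂ → PairData.{w} ℚ (ℤ × ℤ) ℚ) : Prop where
  weight : ∀ k : Subfield ℂ, NumberField k → IsWeightPair (C k)
  weightBase : ∀ k : Subfield ℂ, NumberField k → IsWeightPair (C₀ k)
  generated : ∀ k : Subfield ℂ, NumberField k → WeightGen (C k)
  generatedBase : ∀ k : Subfield ℂ, NumberField k → WeightGen (C₀ k)
  point : ∀ k : Subfield ℂ, NumberField k → BijAll (C k) (aff k k)
  pointBase : ∀ k : Subfield ℂ, NumberField k → BijAll (C₀ k) (aff ℚ ℚ)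

/-- The maps are isomorphisms for all hypersurfaces `T = 1` over `k` with a block of at most `m`
variables. -/
def Forms (k : Subfield ℂ) (C : PairData.{w} k (ℤ × ℤ) ℚ) (m : ℕ) : Prop :=
  ∀ (a b c : ℕ) (T : Fin a → Fin b → Fin c → k), (a ≤ m ∨ b ≤ m ∨ c ≤ m) → BijAll C (hypS T)

/-- **The Abel–Jacobi map over number fields and cubic hypersurfaces.** See the explanations above.
Known cases that are used: points and curves. -/
theorem result {D : AbelJacobi.{w'}} {C : ∀ k : Subfield ℂ, PairData.{w} k (ℤ × ℤ) ℚ}
    {C₀ : Subfield ℂ → PairData.{w} ℚ (ℤ × ℤ) ℚ} (h : Describes D C C₀) (s : Standard C C₀)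
    (curves : ∀ k : Subfield ℂ, NumberField k → ∀ Y : Sch k, SmoothProj Y →
      topologicalKrullDim Y.left ≤ (1 : ℕ) → InjectiveFor D k Y) :
    (AllFields D ↔ ∀ k : Subfield ℂ, NumberField k →
      ∀ (a b c : ℕ) (H : Finset (Fin a × Fin b × Fin c)), BijAll (C₀ k) (tripS ℚ H)) ∧
    (∀ k : Subfield ℂ, NumberField k → ∀ n : ℕ,
      (∀ Y : Sch k, SmoothProj Y → topologicalKrullDim Y.left ≤ n → InjectiveFor D k Y) ↔
        Forms k (C k) (n + 2)) ∧
    (∀ k : Subfield ℂ, NumberField k → Forms k (C k) 3) := by
  have e : ∀ k : Subfield ℂ, NumberField k → ∀ n : ℕ,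
      (∀ Y : Sch k, SmoothProj Y → topologicalKrullDim Y.left ≤ n → InjectiveFor D k Y) ↔
        Forms k (C k) (n + 2) := by
    intro k hk n
    refine Iff.trans ?_ (wg_dim (s.generated k hk) (s.weight k hk) (s.point k hk) n)
    exact ⟨fun g Y hY hn => (h.kernel k hk Y hY).mp (g Y hY hn),
      fun g Y hY hn => (h.kernel k hk Y hY).mpr (g Y hY hn)⟩
  refine ⟨?_, e, fun k hk => (e k hk 1).mp (curves k hk)⟩
  refine forall_congr' fun k => forall_congr' fun hk => ?_
  refine (h.descent k hk).trans (Iff.trans ?_
    (wg_graph (s.generatedBase k hk) (s.weightBase k hk) (s.pointBase k hk) frac_rat))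
  exact ⟨fun g Y hY => (h.kernelBase k hk Y hY).mp (g Y hY),
    fun g Y hY => (h.kernelBase k hk Y hY).mpr (g Y hY)⟩

end Pool.Agent.Results.MP_a1cc03_ag.EveryNumberField
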