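import Pool.Agent.Q72.DP.AJMain

/-!
# Injectivity of the Abel-Jacobi maps: powers of one divisor on rational varieties suffice

`𝒱` is the class of smooth projective geometrically irreducible varieties over the number field `k`
(or any class closed under products with the properties below), `C` the Chow groups with rational
coefficients (in the form of their formal properties, `IsChowProj`), `H` a Weil cohomology theory
(`IsWeilProj`; for the problem: Betti cohomology), `N X j ⊆ CH^j(X)` the kernel of the Abel-Jacobi map
(`IsAJKernel`: homologically trivial classes, stable under correspondences), `B` the Grothendieck rings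
of vector bundles with their known properties (`IsKTheory`), and `Rat` the class of rational
varieties (`IsRationalClass`: it contains the blow-ups of projective spaces along smooth
subvarieties, and projective bundles over its members).

Theorem. The following are equivalent:
* the Abel-Jacobi maps of all varieties are injective (in all codimensions);
* for every divisor `G` on a variety `V` and all `m`: if `G^m` is in the kernel of the Abel-Jacobi
  map then `G^m = 0` in `CH^m(V)`;
* the same for the divisors `G` on rational varieties `V` with `dim V = 2m`.
-/

open CategoryTheory AlgebraicGeometry

set_option autoImplicit false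

universe u v w

namespace Pool.Agent.Results.MP_a1cc03_ag.RationalVarieties

open Pool.Agent.H914 Pool.Agent.W492.BB Pool.Agent.TH133 Pool.Agent.Q72.DP

/-- The Abel-Jacobi maps of all varieties are injective if and only if, for all divisors `G` on
rational varieties of dimension `2m`, `G^m` vanishes as soon as it is in the kernel of the
Abel-Jacobi map. -/
theorem result {k : Type u} [Field k] {𝒱 : VarClass k} (C : TheoryData.{u, v, 0} 𝒱 ℚ)
    [IsChowProj C] {K : Type w} [Field K] (H : WeilTheoryData.{u, v, w} C K) [IsWeilProj H]
    (N : ∀ X : 𝒱.Obj, ℕ → Submodule ℚ (C.A X)) (hN : IsAJKernel H N)
    (B : BundleData C) (hB : B.IsKTheory) (Rat : 𝒱.Obj → Prop) (hRat : IsRationalClass B Rat) :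
    [∀ X : 𝒱.Obj, AJInjective N X, ∀ V : 𝒱.Obj, PowersInjective N V,
      MiddleRational N Rat].TFAE :=
  inj_all hB hRat hN.adequate (one_notMem_aj hN)

end Pool.Agent.Results.MP_a1cc03_ag.RationalVarieties
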